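import Pool.Agent.TPM.Cnd

set_option autoImplicit false

/-!
# Ccc: the Cohen conditions satisfy the countable chain condition

PROOF. Suppose that `f i` and `f j` are incompatible for all `i < j` in `W1`; `c ≤ a, c ≤ b` exists iff
`Disjoint a.pos b.neg ∧ Disjoint a.neg b.pos` (take the unions). So for `i ≠ j` the conditions are incompatible (and
different). `W1` is uncountable (its cardinality is `ℵ₁`), so for some `n` the set of all `i` with
`(f i).pos.card + (f i).neg.card = n` is uncountable, hence it has a finite subset `F` with `2 ^ n + 1` elements. Let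
`D` be the union of all `(f i).pos ∪ (f i).neg`, `i ∈ F`. The sets `X i = Finset.Icc (f i).pos (D \ (f i).neg)`,
`i ∈ F`, are pairwise disjoint subsets of `D.powerset` and have `2 ^ (D.card - n)` elements each
(`Finset.card_Icc_finset`). So `(2 ^ n + 1) * 2 ^ (D.card - n) ≤ 2 ^ D.card`, a contradiction.
-/

namespace Pool.Agent.TPM

open Cardinal Set

variable {K : Type}

theorem ccc_compat {a b : Coh K} (h1 : Disjoint a.pos b.neg) (h2 : Disjoint a.neg b.pos) :
    ∃ c : Coh K, c ≤ a ∧ c ≤ b := by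
  classical
  refine ⟨⟨a.pos ∪ b.pos, a.neg ∪ b.neg, ?_⟩, ?_, ?_⟩
  · rw [Finset.disjoint_union_left, Finset.disjoint_union_right, Finset.disjoint_union_right]
    exact ⟨⟨a.dis, h1⟩, h2.symm, b.dis⟩
  · exact ⟨Finset.subset_union_left, Finset.subset_union_left⟩
  · exact ⟨Finset.subset_union_right, Finset.subset_union_right⟩

theorem ccc_kraft {ι : Type} (f : ι → Coh K)
    (hf : ∀ i j, i ≠ j → ¬ (Disjoint (f i).pos (f j).neg ∧ Disjoint (f i).neg (f j).pos)) (n : ℕ)
    (F : Finset ι) (hF : ∀ i ∈ F, (f i).pos.card + (f i).neg.card = n) : F.card ≤ 2 ^ n := by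
  classical
  by_contra hcon
  push Not at hcon
  have hne : F.Nonempty := Finset.card_pos.1 (lt_of_le_of_lt (Nat.zero_le _) hcon)
  let D : Finset (K × ℕ) := F.biUnion (fun i => (f i).pos ∪ (f i).neg)
  have hD : ∀ i ∈ F, (f i).pos ∪ (f i).neg ⊆ D := fun i hi =>
    Finset.subset_biUnion_of_mem (fun i => (f i).pos ∪ (f i).neg) hi
  have hDn : n ≤ D.card := by
    obtain ⟨i, hi⟩ := hne
    rw [← hF i hi, ← Finset.card_union_of_disjoint (f i).dis]
    exact Finset.card_le_card (hD i hi)
  let X : ι → Finset (Finset (K × ℕ)) := fun i => Finset.Icc (f i).pos (D \ (f i).neg)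
  have hX : ∀ i ∈ F, (X i).card = 2 ^ (D.card - n) := by
    intro i hi
    have hsub : (f i).pos ⊆ D \ (f i).neg := by
      intro x hx
      rw [Finset.mem_sdiff]
      exact ⟨hD i hi (Finset.mem_union_left _ hx), Finset.disjoint_left.1 (f i).dis hx⟩
    have hneg : (f i).neg ⊆ D := Finset.subset_union_right.trans (hD i hi)
    rw [Finset.card_Icc_finset hsub, Finset.card_sdiff_of_subset hneg]
    congr 1
    have := hF i hi
    omega
  have hdis : (F : Set ι).PairwiseDisjoint X := by
    intro i hi j hj hij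
    show Disjoint (X i) (X j)
    rw [Finset.disjoint_left]
    intro s hsi hsj
    rw [Finset.mem_Icc] at hsi hsj
    refine hf i j hij ⟨?_, ?_⟩
    · rw [Finset.disjoint_left]
      intro x hx hx'
      exact (Finset.mem_sdiff.1 (hsj.2 (hsi.1 hx))).2 hx'
    · rw [Finset.disjoint_left]
      intro x hx hx'
      exact (Finset.mem_sdiff.1 (hsi.2 (hsj.1 hx'))).2 hx
  have hcard := Finset.card_biUnion hdis
  rw [Finset.sum_congr rfl hX, Finset.sum_const, smul_eq_mul] at hcard
  have hsub : F.biUnion X ⊆ D.powerset := by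
    intro s hs
    obtain ⟨i, hi, hsi⟩ := Finset.mem_biUnion.1 hs
    rw [Finset.mem_Icc] at hsi
    rw [Finset.mem_powerset]
    exact hsi.2.trans Finset.sdiff_subset
  have hle := Finset.card_le_card hsub
  rw [hcard, Finset.card_powerset] at hle
  have hpow : 2 ^ D.card = 2 ^ n * 2 ^ (D.card - n) := by
    rw [← pow_add]
    congr 1
    omega
  rw [hpow] at hle
  have hpos : 0 < 2 ^ (D.card - n) := pow_pos (by norm_num) _
  have := Nat.le_of_mul_le_mul_right hle hpos
  omega

theorem coh_ccc (f : W1 → Coh K) : ∃ i j, i < j ∧ ∃ c, c ≤ f i ∧ c ≤ f j := by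
  by_contra hcon
  have hinc : ∀ i j, i ≠ j → ¬ (Disjoint (f i).pos (f j).neg ∧ Disjoint (f i).neg (f j).pos) := by
    rintro i j hij ⟨h1, h2⟩
    rcases lt_or_gt_of_ne hij with h | h
    · obtain ⟨c, hc1, hc2⟩ := ccc_compat h1 h2
      exact hcon ⟨i, j, h, c, hc1, hc2⟩
    · obtain ⟨c, hc1, hc2⟩ := ccc_compat h1 h2
      exact hcon ⟨j, i, h, c, hc2, hc1⟩
  have hex : ∃ n : ℕ, {i : W1 | (f i).pos.card + (f i).neg.card = n}.Infinite := by
    by_contra hno
    push Not at hno
    have hc : (Set.univ : Set W1).Countable := by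
      have hU : (Set.univ : Set W1) = ⋃ n : ℕ, {i : W1 | (f i).pos.card + (f i).neg.card = n} := by
        ext i
        simp
      rw [hU]
      exact Set.countable_iUnion (fun n => (hno n).countable)
    have h1 : #W1 ≤ ℵ₀ := by
      rw [← Cardinal.mk_univ]
      exact (Cardinal.le_aleph0_iff_set_countable).2 hc
    have h2 : #W1 = ℵ₁ := Pool.Agent.H12.Thread.mk_KK
    rw [h2] at h1
    exact absurd h1 (not_le.2 Cardinal.aleph0_lt_aleph_one)
  obtain ⟨n, hn⟩ := hex
  obtain ⟨F, hF, hFc⟩ := hn.exists_subset_card_eq (2 ^ n + 1)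
  have := ccc_kraft f hinc n F (fun i hi => hF hi)
  omega

end Pool.Agent.TPM
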