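import Pool.Agent.H12.Thread.Tools

set_option autoImplicit false

/-!
# The conditions of the colouring poset

The colours are terms: pairs of finite sets of indices (the positive and the negative part of the term). Later a
term `t` is evaluated by Cohen reals `Z i` (`i : K`) as the least number which belongs to `Z i` for all `i ∈ t.1` and
does not belong to `Z i` for all `i ∈ t.2`.
-/

namespace Pool.Agent.TPM

open Cardinal Set

/-- Terms: a positive and a negative part. -/
abbrev Col (K : Type) : Type := Finset K × Finset K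

/-- The terms `s` and `t` are compatible: they may have the same value. -/
def Cmp {K : Type} (s t : Col K) : Prop := Disjoint s.1 t.2 ∧ Disjoint s.2 t.1

theorem Cmp.symm {K : Type} {s t : Col K} (h : Cmp s t) : Cmp t s := ⟨h.2.symm, h.1.symm⟩

/-- Raw data: a set of points, a colouring `c` of the pairs, and the index sets `S d v`. -/
structure Raw (Ω K : Type) where
  a : Set Ω
  c : Ω → Ω → Col K
  S : Ω → Ω → Finset K

variable {Ω K : Type} [LinearOrder Ω]

/-- `q` extends `p`: it agrees with `p`, and no new point can be homogeneous with two old points. -/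
structure Ext (p q : Raw Ω K) : Prop where
  sub : p.a ⊆ q.a
  agree : ∀ u ∈ p.a, ∀ v ∈ p.a, q.c u v = p.c u v ∧ q.S u v = p.S u v
  tight : ∀ x ∈ q.a, ∀ y ∈ p.a, ∀ z ∈ p.a, x < y → y < z → Cmp (q.c x y) (q.c x z) → Cmp (q.c x y) (q.c y z) →
    Cmp (q.c x z) (q.c y z) → x ∈ p.a

theorem Ext.refl (p : Raw Ω K) : Ext p p := ⟨subset_rfl, fun _ _ _ _ => ⟨rfl, rfl⟩,
  fun _ hx _ _ _ _ _ _ _ _ _ => hx⟩

theorem Ext.trans {p q r : Raw Ω K} (h : Ext p q) (h' : Ext q r) : Ext p r := by
  refine ⟨h.sub.trans h'.sub, fun u hu v hv =>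
    ⟨((h'.agree u (h.sub hu) v (h.sub hv)).1).trans (h.agree u hu v hv).1,
    ((h'.agree u (h.sub hu) v (h.sub hv)).2).trans (h.agree u hu v hv).2⟩, ?_⟩
  intro x hx y hy z hz hxy hyz h1 h2 h3
  have hxq : x ∈ q.a := h'.tight x hx y (h.sub hy) z (h.sub hz) hxy hyz h1 h2 h3
  have e1 := (h'.agree x hxq y (h.sub hy)).1
  have e2 := (h'.agree x hxq z (h.sub hz)).1
  have e3 := (h'.agree y (h.sub hy) z (h.sub hz)).1
  rw [e1, e2] at h1
  rw [e1, e3] at h2
  rw [e2, e3] at h3
  exact h.tight x hxq y hy z hz hxy hyz h1 h2 h3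

/-- The requirements of finite character, together with smallness. -/
structure Pre (κ : Cardinal.{0}) (p : Raw Ω K) : Prop where
  small : #p.a < κ
  star : ∀ u ∈ p.a, ∀ v ∈ p.a, u < v → ∀ d ∈ p.a, u < d → ¬ (Disjoint (p.c u v).1 (p.S d u) ∧ Disjoint (p.c u v).1 (p.S d v))
  wf : ∀ u ∈ p.a, ∀ v ∈ p.a, u < v → Disjoint (p.c u v).1 (p.c u v).2

/-- `T` is a fully good assignment of index sets to the points of `p`. -/
def Full (p : Raw Ω K) (T : Ω → Finset K) : Prop :=
  ∀ u ∈ p.a, ∀ v ∈ p.a, u < v → ¬ (Disjoint (p.c u v).1 (T u) ∧ Disjoint (p.c u v).1 (T v))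

open Classical in
/-- The assignment used along a thread through `d`. -/
noncomputable def mix (p : Raw Ω K) (d t : Ω) (v : Ω) : Finset K := if v < d then p.S d v else p.S d v ∪ p.S t v

theorem mix_of_lt {p : Raw Ω K} {d t v : Ω} (h : v < d) : mix p d t v = p.S d v := if_pos h

open Classical in
theorem mix_of_le {p : Raw Ω K} {d t v : Ω} (h : d ≤ v) : mix p d t v = p.S d v ∪ p.S t v := if_neg (not_lt.2 h)

/-- A condition: raw data satisfying `Pre` with a largest element. -/
structure Cond (Ω K : Type) [LinearOrder Ω] (κ : Cardinal.{0}) where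
  raw : Raw Ω K
  pre : Pre κ raw
  top : Ω
  top_mem : top ∈ raw.a
  le_top : ∀ x ∈ raw.a, x ≤ top

variable {κ : Cardinal.{0}}

instance : Preorder (Cond Ω K κ) where
  le q p := Ext p.raw q.raw
  le_refl p := Ext.refl p.raw
  le_trans _ _ _ h h' := Ext.trans h' h

theorem le_def {p q : Cond Ω K κ} : q ≤ p ↔ Ext p.raw q.raw := Iff.rfl

theorem top_le {p q : Cond Ω K κ} (h : q ≤ p) : p.top ≤ q.top := q.le_top _ (h.sub p.top_mem)

/-- `q` is a thread extension of `p`. -/
structure Thr (p q : Cond Ω K κ) : Prop where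
  le : q ≤ p
  eq : ∀ v ∈ p.raw.a, v < p.top → q.raw.S q.top v = p.raw.S p.top v
  sub : p.raw.S p.top p.top ⊆ q.raw.S q.top p.top

theorem Thr.refl (p : Cond Ω K κ) : Thr p p := ⟨le_refl p, fun _ _ _ => rfl, subset_rfl⟩

theorem Thr.trans {p q r : Cond Ω K κ} (h : Thr p q) (h' : Thr q r) : Thr p r := by
  refine ⟨h'.le.trans h.le, fun v hv hvt => ?_, ?_⟩
  · rw [h'.eq v (h.le.sub hv) (hvt.trans_le (top_le h.le)), h.eq v hv hvt]
  · rcases (top_le h.le).eq_or_lt with h1 | h1
    · intro x hx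
      have h3 := (h.le.agree p.top p.top_mem p.top p.top_mem).2
      have h2 := h'.sub
      rw [← h1, h3] at h2
      exact h2 hx
    · rw [h'.eq p.top (h.le.sub p.top_mem) h1]
      exact h.sub

/-- The Cohen conditions: finite partial functions from `K × ℕ` to `2` (a positive and a negative part). -/
structure Coh (K : Type) where
  pos : Finset (K × ℕ)
  neg : Finset (K × ℕ)
  dis : Disjoint pos neg

instance : Preorder (Coh K) where
  le b a := a.pos ⊆ b.pos ∧ a.neg ⊆ b.neg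
  le_refl a := ⟨subset_rfl, subset_rfl⟩
  le_trans _ _ _ h h' := ⟨h'.1.trans h.1, h'.2.trans h.2⟩

instance : OrderTop (Coh K) where
  top := ⟨∅, ∅, disjoint_bot_left⟩
  le_top _ := ⟨Finset.empty_subset _, Finset.empty_subset _⟩

/-- The Cohen condition `a` decides that the term `t` has the value `n`. -/
def Dec (a : Coh K) (t : Col K) (n : ℕ) : Prop :=
  (∀ i ∈ t.1, (i, n) ∈ a.pos) ∧ (∀ i ∈ t.2, (i, n) ∈ a.neg) ∧
    ∀ m < n, (∃ i ∈ t.1, (i, m) ∈ a.neg) ∨ ∃ i ∈ t.2, (i, m) ∈ a.pos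

/-- The product poset. -/
abbrev PP (Ω K : Type) [LinearOrder Ω] (κ : Cardinal.{0}) : Type := Cond Ω K κ × Coh K

/-- The conditions which decide that the colour of `(x, y)` is `n`. -/
def SP (Ω K : Type) [LinearOrder Ω] (κ : Cardinal.{0}) (x y : Ω) (n : ℕ) : Set (PP Ω K κ) :=
  {p | x ∈ p.1.raw.a ∧ y ∈ p.1.raw.a ∧ Dec p.2 (p.1.raw.c x y) n}

/-- Open subsets of a preorder (smaller conditions are stronger). -/
def Opn {P : Type} [Preorder P] (S : Set P) : Prop := ∀ p ∈ S, ∀ q ≤ p, q ∈ S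

/-- Dense subsets. -/
def Dns {P : Type} [Preorder P] (S : Set P) : Prop := ∀ p, ∃ q ≤ p, q ∈ S

/-- `F` bounds the relation with the name `B` below `q` (if the relation is single-valued). -/
def CovP {P I J : Type} [Preorder P] (B : I → J → Set P) (q : P) (F : I → Set J) : Prop :=
  (∀ i, (F i).Countable) ∧ ∀ i j, ∀ r ≤ q, r ∈ B i j → (∃ j', j' ≠ j ∧ ∃ s ≤ r, s ∈ B i j ∧ s ∈ B i j') ∨ j ∈ F i

/-- The names `B x` and `B y` of subsets of `I` are equal below `q`. -/
def EqP {P L I : Type} [Preorder P] (B : L → I → Set P) (q : P) (x y : L) : Prop :=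
  ∀ i, (∀ r ≤ q, r ∈ B x i → ∃ s ≤ r, s ∈ B y i) ∧ ∀ r ≤ q, r ∈ B y i → ∃ s ≤ r, s ∈ B x i

/-- The range of `d` contains all points which may be homogeneous with `y` and `z`. -/
def SealP {P L I : Type} [Preorder P] [LinearOrder L] (S : L → L → ℕ → Set P) (q : P) (y z : L) (d : I → L) : Prop :=
  ∀ x < y, ∀ r ≤ q, ∀ n, r ∈ S x y n → r ∈ S x z n → r ∈ S y z n → x ∈ Set.range d

/-- The combinatorial properties of the poset `P` with the name `S` of a colouring. `W` is a wellordered set of type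
`ω₁`, `L` is a wellordered set whose order type is the successor cardinal of `2 ^ ℵ₁`. -/
structure Good (P W L : Type) [Preorder P] [LinearOrder L] (S : L → L → ℕ → Set P) : Prop where
  opn : ∀ x y n, Opn (S x y n)
  tot : ∀ x y, x < y → ∀ p, ∃ q ≤ p, ∃ n, q ∈ S x y n
  unq : ∀ x y m n p, p ∈ S x y m → p ∈ S x y n → m = n
  sld : ∀ y z, y < z → ∀ p, ∃ q ≤ p, ∃ d : W → L, SealP S q y z d
  cov : ∀ (I J : Type) (B : I → J → Set P), #I ≤ ℵ₁ → (∀ i j, Opn (B i j)) → ∀ p, ∃ q ≤ p, ∃ F : I → Set J, CovP B q F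
  eqn : ∀ B : L → W → Set P, (∀ x i, Opn (B x i)) → ∀ p, ∃ q ≤ p, ∃ x y, x ≠ y ∧ EqP B q x y

open Pool.Agent.H12.Thread (KK Om)

/-- A wellordered type of order type `ω₁`. -/
abbrev W1 : Type := KK ℵ₁

/-- A wellordered type of order type `ω₂`. -/
abbrev K2 : Type := KK (Order.succ ℵ₁)

/-- A wellordered type whose order type is the successor cardinal of `2 ^ ℵ₁`. -/
abbrev LL : Type := Om (2 ^ ℵ₁)

end Pool.Agent.TPM
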