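import Pool.Agent.H55.CSDefs

set_option autoImplicit false

/-!
# Partition relations inside a model of set theory

All notions are relativized to a structure `(M, E)`: all quantifiers range over `M` and `E` is the membership
relation of the model.
-/

namespace Pool.Agent.TPM

open Pool.Agent.H55.SC Pool.Agent.H55.CS

universe u

variable {M : Type u} (E : M → M → Prop)

/-- In the model, `f` is an injective function from `a` to `b`. -/
def IsInj (f a b : M) : Prop := IsFun E f a b ∧ ∀ x x' y, Rel E f x y → Rel E f x' y → x = x'

/-- In the model, `P` is the power set of `a`. -/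
def IsPow (P a : M) : Prop := ∀ x, E x P ↔ Sub E x a

/-- In the model, `κ` is the cardinal `ω₂`, where `o` is the cardinal `ω₁`: the least ordinal which is neither empty
nor an image of `o`. -/
def IsOmega2 (o κ : M) : Prop := IsOrdinal E κ ∧ (∃ x, E x κ) ∧ (¬ ∃ f, IsSurj E f o κ) ∧
  ∀ α, E α κ → (∀ x, ¬ E x α) ∨ ∃ f, IsSurj E f o α

/-- In the model, `L` is the successor cardinal of the cardinality of `P`: the least ordinal which has no injective
map to `P`. -/
def IsSuccCard (P L : M) : Prop := IsOrdinal E L ∧ (¬ ∃ f, IsInj E f L P) ∧ ∀ α, E α L → ∃ f, IsInj E f α P

/-- The colouring `c` gives the pair `(x, y)` the colour `n`. -/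
def HasCol (c x y n : M) : Prop := ∃ p, IsPair E p x y ∧ Rel E c p n

/-- In the model, `c` is a colouring of the pairs `x ∈ y` of elements of the ordinal `L` with colours in `w`. -/
def IsColouring (c L w : M) : Prop := ∀ x y, E x y → E y L → ∃! n, E n w ∧ HasCol E c x y n

/-- In the model, `h` is a strictly increasing function from the ordinal `T` to the ordinal `L`. -/
def IsIncr (h T L : M) : Prop := IsFun E h T L ∧ ∀ s t x y, E s t → E t T → Rel E h s x → Rel E h t y → E x y

/-- In the model, all pairs of elements of the range of `h` (on `T`) have the colour `n`. -/
def IsHomog (c h T n : M) : Prop := ∀ s t x y, E s t → E t T → Rel E h s x → Rel E h t y → HasCol E c x y n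

/-- In the model, the partition relation `L → (T)²_w` for ordinals `L`, `T` and the set `w` of colours: for every
colouring there are a colour and a strictly increasing function from `T` to `L` such that all pairs of elements of
its range have this colour. -/
def Arrows (L T w : M) : Prop := ∀ c, IsColouring E c L w → ∃ h n, E n w ∧ IsIncr E h T L ∧ IsHomog E c h T n

end Pool.Agent.TPM
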