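import Pool.Agent.TPM.Gnd

set_option autoImplicit false
set_option linter.all false

/-!
# Gfn: functions on wellordered types in the model, and covering

`GfOk` and `rel_gf`: the function `i ↦ t y i` on the set `s y` (`y` is a parameter) as an element of the model.
`CvOk` and `cover`: a single-valued relation of the model is bounded by a function of the ground model with countable
values.
-/

namespace Pool.Agent.TPM

open FirstOrder FirstOrder.Language Pool.Agent.H55.SC Pool.Agent.H55.CS Pool.Agent.H55.ZFU Pool.Agent.H55.Lav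

variable {Q : Type} [Preorder Q] [OrderTop Q]

/-- The name of the function `i ↦ t i` on `s`. -/
def gfN {I : Type} [LinearOrder I] [WellFoundedLT I] (s : Set I) (t : I → Nm Q) : Nm Q :=
  .mk s (fun i => opN (ck Q i.1) (t i.1)) (fun _ => ⊤)

/-- Closure properties of `N` used for a family of functions. -/
structure GfOk (N : Set (Un Q)) {Y I : Type} [LinearOrder I] [WellFoundedLT I] (s : Y → Set I) (t : Y → I → Nm Q) :
    Prop where
  nm : ∀ y, InT N y → InN N (gfN (s y) (t y))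
  val : ∀ y, InT N y → ∀ i, InT N i → InN N (t y i)
  back : ∀ y, InT N y → ∀ ρ : Nm Q, InN N ρ → (∃ i, i ∈ s y ∧ opN (ck Q i) (t y i) = ρ) →
    ∃ i, (i ∈ s y ∧ opN (ck Q i) (t y i) = ρ) ∧ InT N i

lemma gfOk_club {Y I : Type} [LinearOrder I] [WellFoundedLT I] (s : Y → Set I) (t : Y → I → Nm Q) :
    ∀ᶠ N in club (Un Q), GfOk N s t := by
  have h1 : ∀ᶠ N in club (Un Q), ∀ y, InT N y → InN N (gfN (s y) (t y)) := diagT (fun y => club_inN _)
  have h2 : ∀ᶠ N in club (Un Q), ∀ y, InT N y → ∀ i, InT N i → InN N (t y i) :=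
    diagT (fun y => diagT (fun i => club_inN _))
  have h3 : ∀ᶠ N in club (Un Q), ∀ y, InT N y → ∀ ρ : Nm Q, InN N ρ → (∃ i, i ∈ s y ∧ opN (ck Q i) (t y i) = ρ) →
      ∃ i, (i ∈ s y ∧ opN (ck Q i) (t y i) = ρ) ∧ InT N i := by
    refine diagT (fun y => diagN (fun ρ => ?_))
    by_cases h : ∃ i, i ∈ s y ∧ opN (ck Q i) (t y i) = ρ
    · obtain ⟨j, hj⟩ := h
      exact (club_inT j).mono (fun N hN _ => ⟨j, hj, hN⟩)
    · exact Filter.Eventually.of_forall (fun N h' => (h h').elim)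
  filter_upwards [h1, h2, h3] with N h1 h2 h3
  exact ⟨h1, h2, h3⟩

section
variable {N : Set (Un Q)} {G : Set Q} {Y I : Type} [LinearOrder I] [WellFoundedLT I] {s : Y → Set I}
  {t : Y → I → Nm Q} (bok : BOk N) (gen : GenF N G) (gI : GOk N I) (gf : GfOk N s t)

include bok gen in
lemma rel_gf {y : Y} (hy : InT N y) {x z : MM N G} :
    Rel EE (vl G (gf.nm y hy)) x z ↔
      ∃ i, ∃ hi : InT N i, i ∈ s y ∧ x = cv G gI hi ∧ z = vl G (gf.val y hy i hi) := by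
  have htop := top_mem bok.ok gen
  constructor
  · rintro ⟨p, hp, hpp⟩
    obtain ⟨⟨i, hi⟩, h1, _, h3⟩ := mem_val.mp (show p.1 ∈ val N G (gfN (s y) (t y)) from hp)
    obtain ⟨j, ⟨hj, hj1⟩, hj2⟩ := gf.back y hy _ h1 ⟨i, hi, rfl⟩
    refine ⟨j, hj2, hj, ?_⟩
    have h8 := op_pair bok.ok bok.zok gen (gI.nm j hj2) (gf.val y hy j hj2)
    have h9 : vl G (inN_op bok.zok (gI.nm j hj2) (gf.val y hy j hj2)) = p := by
      apply Subtype.ext
      rw [← h3]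
      show val N G (opN (ck Q j) (t y j)) = _
      rw [hj1]
    rw [h9] at h8
    exact pair_inj' bok gen hpp h8
  · rintro ⟨i, hi, his, rfl, rfl⟩
    exact ⟨vl G (inN_op bok.zok (gI.nm i hi) (gf.val y hy i hi)),
      mem_val.mpr ⟨⟨i, his⟩, inN_op bok.zok (gI.nm i hi) (gf.val y hy i hi), htop, rfl⟩,
      op_pair bok.ok bok.zok gen (gI.nm i hi) (gf.val y hy i hi)⟩

end

/-- Closure properties of `N` used for the covering lemma. -/
structure CvOk (N : Set (Un Q)) (I J : Type) : Prop where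
  d : ∀ B : I → J → Set Q, InT N B → InT N {q : Q | ∃ F : I → Set J, CovP B q F}
  w : ∀ B : I → J → Set Q, InT N B → ∀ q : Q, InT N q → (∃ F : I → Set J, CovP B q F) →
    ∃ F : I → Set J, CovP B q F ∧ InT N F
  x : ∀ B : I → J → Set Q, InT N B → ∀ i, InT N i → ∀ j, InT N j →
    InT N {s : Q | (∃ j', j' ≠ j ∧ s ∈ B i j ∧ s ∈ B i j') ∨ ¬ ∃ r ≤ s, ∃ j', j' ≠ j ∧ r ∈ B i j ∧ r ∈ B i j'}
  xw : ∀ B : I → J → Set Q, InT N B → ∀ i, InT N i → ∀ j, InT N j → ∀ s : Q, InT N s →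
    (∃ j', j' ≠ j ∧ s ∈ B i j ∧ s ∈ B i j') → ∃ j', (j' ≠ j ∧ s ∈ B i j ∧ s ∈ B i j') ∧ InT N j'

lemma cvOk_club (I J : Type) : ∀ᶠ N in club (Un Q), CvOk N I J := by
  have h1 : ∀ᶠ N in club (Un Q), ∀ B : I → J → Set Q, InT N B → InT N {q : Q | ∃ F : I → Set J, CovP B q F} :=
    diagT (fun B => club_inT _)
  have h2 : ∀ᶠ N in club (Un Q), ∀ B : I → J → Set Q, InT N B → ∀ q : Q, InT N q → (∃ F : I → Set J, CovP B q F) →
      ∃ F : I → Set J, CovP B q F ∧ InT N F := by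
    refine diagT (fun B => diagT (fun q => ?_))
    by_cases h : ∃ F : I → Set J, CovP B q F
    · obtain ⟨F, hF⟩ := h
      exact (club_inT F).mono (fun N hN _ => ⟨F, hF, hN⟩)
    · exact Filter.Eventually.of_forall (fun N h' => (h h').elim)
  have h3 : ∀ᶠ N in club (Un Q), ∀ B : I → J → Set Q, InT N B → ∀ i, InT N i → ∀ j, InT N j →
      InT N {s : Q | (∃ j', j' ≠ j ∧ s ∈ B i j ∧ s ∈ B i j') ∨ ¬ ∃ r ≤ s, ∃ j', j' ≠ j ∧ r ∈ B i j ∧ r ∈ B i j'} :=
    diagT (fun B => diagT (fun i => diagT (fun j => club_inT _)))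
  have h4 : ∀ᶠ N in club (Un Q), ∀ B : I → J → Set Q, InT N B → ∀ i, InT N i → ∀ j, InT N j → ∀ s : Q, InT N s →
      (∃ j', j' ≠ j ∧ s ∈ B i j ∧ s ∈ B i j') → ∃ j', (j' ≠ j ∧ s ∈ B i j ∧ s ∈ B i j') ∧ InT N j' := by
    refine diagT (fun B => diagT (fun i => diagT (fun j => diagT (fun s => ?_))))
    by_cases h : ∃ j', j' ≠ j ∧ s ∈ B i j ∧ s ∈ B i j'
    · obtain ⟨j', hj'⟩ := h
      exact (club_inT j').mono (fun N hN _ => ⟨j', hj', hN⟩)
    · exact Filter.Eventually.of_forall (fun N h' => (h h').elim)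
  filter_upwards [h1, h2, h3, h4] with N h1 h2 h3 h4
  exact ⟨h1, h2, h3, h4⟩

/-- The covering lemma. -/
theorem cover {N : Set (Un Q)} {G : Set Q} {I J : Type} (cok : CvOk N I J) (gen : GenF N G) {B : I → J → Set Q}
    (hB : InT N B) (hO : ∀ i j, Opn (B i j)) (hcov : ∀ p, ∃ q ≤ p, ∃ F : I → Set J, CovP B q F)
    (huniq : ∀ i j j', InT N i → InT N j → InT N j' → Ht G (B i j) → Ht G (B i j') → j = j') :
    ∃ F : I → Set J, InT N F ∧ (∀ i, (F i).Countable) ∧ ∀ i j, InT N i → InT N j → Ht G (B i j) → j ∈ F i := by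
  obtain ⟨q, hq, hqF⟩ := gen.gen _ (cok.d B hB) (fun p => by
    obtain ⟨q, h1, h2⟩ := hcov p
    exact ⟨q, h2, h1⟩)
  obtain ⟨F, hF, hFN⟩ := cok.w B hB q (gen.sub q hq) hqF
  refine ⟨F, hFN, hF.1, fun i j hi hj hH => ?_⟩
  obtain ⟨p, hp, hpB⟩ := hH
  obtain ⟨s, hs, h1⟩ := gen.gen _ (cok.x B hB i hi j hj) (fun p => by
    by_cases h : ∃ r ≤ p, ∃ j', j' ≠ j ∧ r ∈ B i j ∧ r ∈ B i j'
    · obtain ⟨r, hr, h⟩ := h
      exact ⟨r, Or.inl h, hr⟩
    · exact ⟨p, Or.inr h, le_rfl⟩)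
  rcases h1 with h1 | h1
  · obtain ⟨j', ⟨h2, h3, h4⟩, h5⟩ := cok.xw B hB i hi j hj s (gen.sub s hs) h1
    exact (h2 (huniq i j' j hi h5 hj ⟨s, hs, h4⟩ ⟨s, hs, h3⟩)).elim
  · obtain ⟨r1, hr1, h2, h3⟩ := gen.dir s hs p hp
    obtain ⟨r, hr, h4, h5⟩ := gen.dir r1 hr1 q hq
    rcases hF.2 i j r h5 (hO i j p hpB r (h4.trans h3)) with ⟨j', h6, s', h7, h8, h9⟩ | h6
    · exact (h1 ⟨s', (h7.trans h4).trans h2, j', h6, h8, h9⟩).elim
    · exact h6

end Pool.Agent.TPM
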