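import Pool.Agent.H55.Sig.Sig1
import Pool.Agent.TPM.Defs
import Pool.Agent.TPM.Cnd

set_option autoImplicit false
set_option linter.all false

/-!
# Gnd: wellordered types of the universe as ordinals of the model

`N` is a countable set of objects (`Pool/Agent/H55/Lav/Nm.lean`), `G` is generic over `N`, `MM N G` is the model and
`EE` its membership relation (`Lav/Truth.lean`). `ck Q i` is the name of the ordinal of `i : I` (`Lav/ZFM.lean`).
`diagT`, `diagN`, `club_inT`, `club_inN`, `club_all` give closure properties of `N` (see e.g. `aok_club` in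
`Lav/AC.lean` or `sok_club` in `Sig/Sig1.lean` for the pattern).
-/

namespace Pool.Agent.TPM

open FirstOrder FirstOrder.Language Pool.Agent.H55.SC Pool.Agent.H55.CS Pool.Agent.H55.ZFU Pool.Agent.H55.Lav

variable {Q : Type} [Preorder Q] [OrderTop Q]

/-- All general closure properties of `N`. -/
structure BOk (N : Set (Un Q)) : Prop where
  ok : NOk N
  fok : FOk N
  zok : ZOk N
  aok : AOk N
  nat : ∀ n : ℕ, InT N n

lemma bok_club : ∀ᶠ N in club (Un Q), BOk N := by
  filter_upwards [nok_club (Q := Q), fok_club, zok_club, aok_club, club_all (fun n : ℕ => club_inT (Q := Q) n)] with N h1 h2 h3 h4 h5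
  exact ⟨h1, h2, h3, h4, h5⟩

/-- Closure properties of `N` used for the wellordered type `I`. -/
structure GOk (N : Set (Un Q)) (I : Type) [LinearOrder I] [WellFoundedLT I] : Prop where
  nm : ∀ i : I, InT N i → InN N (ck Q i)
  all : InN N (ckT Q I)
  back : ∀ ρ : Nm Q, InN N ρ → (∃ j : I, ck Q j = ρ) → ∃ j : I, ck Q j = ρ ∧ InT N j
  backlt : ∀ i : I, InT N i → ∀ ρ : Nm Q, InN N ρ → (∃ j : I, j < i ∧ ck Q j = ρ) →
    ∃ j : I, (j < i ∧ ck Q j = ρ) ∧ InT N j

lemma gok_club (I : Type) [LinearOrder I] [WellFoundedLT I] : ∀ᶠ N in club (Un Q), GOk N I := by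
  have h1 : ∀ᶠ N in club (Un Q), ∀ i : I, InT N i → InN N (ck Q i) := diagT (fun i => club_inN _)
  have h2 : ∀ᶠ N in club (Un Q), ∀ ρ : Nm Q, InN N ρ → (∃ j : I, ck Q j = ρ) →
      ∃ j : I, ck Q j = ρ ∧ InT N j := by
    refine diagN (fun ρ => ?_)
    by_cases h : ∃ j : I, ck Q j = ρ
    · obtain ⟨j, hj⟩ := h
      exact (club_inT j).mono (fun N hN _ => ⟨j, hj, hN⟩)
    · exact Filter.Eventually.of_forall (fun N h' => (h h').elim)
  have h3 : ∀ᶠ N in club (Un Q), ∀ i : I, InT N i → ∀ ρ : Nm Q, InN N ρ → (∃ j : I, j < i ∧ ck Q j = ρ) →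
      ∃ j : I, (j < i ∧ ck Q j = ρ) ∧ InT N j := by
    refine diagT (fun i => diagN (fun ρ => ?_))
    by_cases h : ∃ j : I, j < i ∧ ck Q j = ρ
    · obtain ⟨j, hj⟩ := h
      exact (club_inT j).mono (fun N hN _ => ⟨j, hj, hN⟩)
    · exact Filter.Eventually.of_forall (fun N h' => (h h').elim)
  filter_upwards [h1, club_inN (ckT Q I), h2, h3] with N h1 h2 h3 h4
  exact ⟨h1, h2, h3, h4⟩

section
variable {N : Set (Un Q)} {G : Set Q} {I : Type} [LinearOrder I] [WellFoundedLT I] (gok : GOk N I)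

/-- The ordinal of the model given by `i : I`. -/
noncomputable def cv (G : Set Q) (gok : GOk N I) {i : I} (h : InT N i) : MM N G := vl G (gok.nm i h)

/-- The ordinal of the model given by the whole type `I`. -/
noncomputable def cT (G : Set Q) (gok : GOk N I) : MM N G := vl G gok.all

variable (htop : (⊤ : Q) ∈ G)
include htop

lemma mem_cv {i : I} (h : InT N i) {z : MM N G} :
    EE z (cv G gok h) ↔ ∃ j, ∃ h' : InT N j, j < i ∧ z = cv G gok h' := by
  constructor
  · intro hz
    obtain ⟨j, hj, h1, h2⟩ := (mem_ck htop).mp hz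
    obtain ⟨k, ⟨hk, hk1⟩, hk2⟩ := gok.backlt i h _ h1 ⟨j, hj, rfl⟩
    refine ⟨k, hk2, hk, Subtype.ext ?_⟩
    show z.1 = val N G (ck Q k)
    rw [← h2, hk1]
  · rintro ⟨j, h', hj, rfl⟩
    exact (mem_ck htop).mpr ⟨j, hj, gok.nm j h', rfl⟩

lemma mem_cT {z : MM N G} : EE z (cT G gok) ↔ ∃ j : I, ∃ h' : InT N j, z = cv G gok h' := by
  constructor
  · intro hz
    obtain ⟨j, h1, h2⟩ := (mem_ckT htop).mp hz
    obtain ⟨k, hk1, hk2⟩ := gok.back _ h1 ⟨j, rfl⟩
    refine ⟨k, hk2, Subtype.ext ?_⟩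
    show z.1 = val N G (ck Q k)
    rw [← h2, hk1]
  · rintro ⟨j, h', rfl⟩
    exact (mem_ckT htop).mpr ⟨j, gok.nm j h', rfl⟩

lemma cv_lt {i j : I} {hi : InT N i} {hj : InT N j} : EE (cv G gok hi) (cv G gok hj) ↔ i < j := by
  have key : ∀ {i j : I} (hi : InT N i) (hj : InT N j), i < j → EE (cv G gok hi) (cv G gok hj) := fun hi hj h =>
    (mem_cv gok htop hj).mpr ⟨_, hi, h, rfl⟩
  constructor
  · intro h
    rcases lt_trichotomy i j with h1 | h1 | h1
    · exact h1
    · subst h1; exact (ZFSet.mem_irrefl _ h).elim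
    · exact (ZFSet.mem_asymm h (key hj hi h1)).elim
  · exact key hi hj

lemma cv_inj {i j : I} {hi : InT N i} {hj : InT N j} (h : cv G gok hi = cv G gok hj) : i = j := by
  rcases lt_trichotomy i j with h1 | h1 | h1
  · have := (cv_lt gok htop (hi := hi) (hj := hj)).mpr h1
    rw [h] at this; exact (ZFSet.mem_irrefl _ this).elim
  · exact h1
  · have := (cv_lt gok htop (hi := hj) (hj := hi)).mpr h1
    rw [h] at this; exact (ZFSet.mem_irrefl _ this).elim

lemma cv_mem {i : I} (h : InT N i) : EE (cv G gok h) (cT G gok) := (mem_cT gok htop).mpr ⟨i, h, rfl⟩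

lemma ord_cT : IsOrdinal (EE (N := N) (G := G)) (cT G gok) := by
  refine ⟨?_, ?_⟩
  · intro x hx z hz
    obtain ⟨i, hi, rfl⟩ := (mem_cT gok htop).mp hx
    obtain ⟨j, hj, hji, rfl⟩ := (mem_cv gok htop hi).mp hz
    exact cv_mem gok htop hj
  · intro x hx y hy z hz
    obtain ⟨i, hi, rfl⟩ := (mem_cT gok htop).mp hx
    obtain ⟨j, hj, hji, rfl⟩ := (mem_cv gok htop hi).mp hy
    obtain ⟨k, hk, hkj, rfl⟩ := (mem_cv gok htop hj).mp hz
    exact (cv_lt gok htop).mpr (hkj.trans hji)

end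

/-! ### Relations of the model -/

/-- The conditions which force that the pair of `i` and `j` belongs to `τ`. -/
def relB {I J : Type} [LinearOrder I] [WellFoundedLT I] [LinearOrder J] [WellFoundedLT J] (τ : Nm Q) (i : I) (j : J) :
    Set Q := {p | fmem (opN (ck Q i) (ck Q j)) τ p}

lemma relB_opn {I J : Type} [LinearOrder I] [WellFoundedLT I] [LinearOrder J] [WellFoundedLT J] (τ : Nm Q) (i : I)
    (j : J) : Opn (relB τ i j) := fun p hp q hq => fmem_mono hp hq

lemma relB_club (I J : Type) [LinearOrder I] [WellFoundedLT I] [LinearOrder J] [WellFoundedLT J] :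
    ∀ᶠ N in club (Un Q), ∀ τ : Nm Q, InN N τ → InT N (relB τ : I → J → Set Q) := diagN (fun τ => club_inT _)

section
variable {N : Set (Un Q)} {G : Set Q} {I J : Type} [LinearOrder I] [WellFoundedLT I] [LinearOrder J] [WellFoundedLT J]
  (bok : BOk N) (gen : GenF N G) (gI : GOk N I) (gJ : GOk N J)

include bok gen in
lemma pair_eq' {τ σ : Nm Q} (hτ : InN N τ) (hσ : InN N σ) {p : MM N G} :
    IsPair (EE (N := N) (G := G)) p (vl G hτ) (vl G hσ) ↔ p = vl G (inN_op bok.zok hτ hσ) := by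
  have h := op_pair bok.ok bok.zok gen hτ hσ
  constructor
  · intro hp
    exact mm_ext (fun z => (hp z).trans (h z).symm)
  · rintro rfl; exact h

include bok gen in
/-- A relation of the model between elements of `I` and of `J` is given by the sets `relB`. -/
lemma rel_iff_relB {τ : Nm Q} (hτ : InN N τ) {i : I} {j : J} (hi : InT N i) (hj : InT N j) :
    Rel (EE (N := N) (G := G)) (vl G hτ) (cv G gI hi) (cv G gJ hj) ↔ Ht G (relB τ i j) := by
  constructor
  · rintro ⟨p, hp, hpp⟩
    rw [(pair_eq' bok gen (gI.nm i hi) (gJ.nm j hj)).mp hpp] at hp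
    exact (val_mem bok.ok gen (inN_op bok.zok (gI.nm i hi) (gJ.nm j hj)) hτ).mp hp
  · intro h
    exact ⟨vl G (inN_op bok.zok (gI.nm i hi) (gJ.nm j hj)),
      (val_mem bok.ok gen (inN_op bok.zok (gI.nm i hi) (gJ.nm j hj)) hτ).mpr h,
      op_pair bok.ok bok.zok gen (gI.nm i hi) (gJ.nm j hj)⟩

include bok gen in
/-- Pairs of elements of the model are equal iff their components are. -/
lemma pair_inj' {p x y x' y' : MM N G} (h : IsPair EE p x y) (h' : IsPair EE p x' y') : x = x' ∧ y = y' := by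
  letI := mdl bok.ok bok.fok bok.zok gen
  haveI : Pure (MM N G) := zPure (zf bok.ok bok.fok bok.zok gen)
  have h1 := (pair_iff (M := MM N G)).mp h
  have h2 := (pair_iff (M := MM N G)).mp h'
  rw [h1, opair_inj] at h2
  exact h2

end

end Pool.Agent.TPM
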